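import Pool.Agent.Lib.MP_56f651_co.SG.GrpMain

open Filter Topology

namespace Pool.Agent.Results.MP_56f651_co.AsymptoticOrders

/-- The number of non-prime `v ≤ x` such that some group of order `v`, cyclic or not, contains a
Hadamard difference set with parameters `(v, (v - 1) / 2, (v - 3) / 4)` is `o(x / log x)`. -/
theorem result :
    Tendsto (fun x : ℕ =>
      (({v : ℕ | v ≤ x ∧ ¬ v.Prime ∧ v % 4 = 3 ∧
        ∃ (G : Type) (_ : Group G) (_ : Fintype G) (_ : DecidableEq G), Fintype.card G = v ∧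
          ∃ D : Finset G, D.card = (v - 1) / 2 ∧ ∀ d : G, d ≠ 1 →
            ((D ×ˢ D).filter (fun q => q.1 * q.2⁻¹ = d)).card = (v - 3) / 4}.ncard : ℕ) : ℝ) /
        ((x : ℝ) / Real.log x)) atTop (𝓝 0) :=
  Pool.Agent.Lib.MP_56f651_co.SG.grp_small

end Pool.Agent.Results.MP_56f651_co.AsymptoticOrders
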