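import Pool.Agent.Lib.MP_56f651_co.RT.Final

namespace Pool.Agent.Results.MP_56f651_co.IndexTwicePrimeSparse

/-- Cyclic Hadamard difference sets with a group of multipliers whose index in the unit group is
at most 7 or twice a given prime: the exceptional prime orders are sparse. -/
theorem result :
    ∀ l : ℕ, l.Prime → ∃ (C : ℝ) (E : Set ℕ), (∀ v ∈ E, v.Prime) ∧
    (∀ x : ℕ, ((E ∩ Set.Iic x).ncard : ℝ) ≤ C * Real.sqrt x) ∧
    ∀ (v : ℕ) (D : Finset (ZMod v)),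
      v % 4 = 3 →
      D.card = (v - 1) / 2 →
      (∀ d : ZMod v, d ≠ 0 →
        ((D ×ˢ D).filter (fun q => q.1 - q.2 = d)).card = (v - 3) / 4) →
      ∀ M : Subgroup (ZMod v)ˣ, (M.index ≤ 7 ∨ M.index = 2 * l) →
      (∀ t ∈ M, ∃ b : ZMod v, D.image (fun x => (t : ZMod v) * x) = D.image (fun x => x + b)) →
      (∃ a b : ZMod v, IsUnit a ∧
        ((v.Prime ∧ ∀ x : ZMod v, x ∈ D ↔ (a * x + b ≠ 0 ∧ IsSquare (a * x + b))) ∨
         (v.Prime ∧ (∃ c : ℕ, v = 4 * c ^ 2 + 27) ∧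
           ∃ g : ZMod v, orderOf g = v - 1 ∧ (∃ m : ℕ, g ^ (6 * m + 1) = 3) ∧
             ∀ x : ZMod v, x ∈ D ↔
               ∃ k : ℕ, (k % 6 = 0 ∨ k % 6 = 1 ∨ k % 6 = 3) ∧ g ^ k = a * x + b) ∨
         (∃ p : ℕ, p.Prime ∧ (p + 2).Prime ∧ v = p * (p + 2) ∧
           ∀ x : ZMod v, x ∈ D ↔
             (jacobiSym ((a * x + b).val : ℤ) p * jacobiSym ((a * x + b).val : ℤ) (p + 2) = 1 ∨
              (a * x + b).val % (p + 2) = 0)))) ∨
      v = 63 ∨ (v ∈ E ∧ 10 ≤ M.index) :=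
  Pool.Agent.Lib.MP_56f651_co.RT.final

end Pool.Agent.Results.MP_56f651_co.IndexTwicePrimeSparse
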