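import Pool.Agent.Lib.MP_56f651_co.IX.One
import Pool.Agent.Lib.MP_56f651_co.IX.Real
import Pool.Agent.Lib.MP_56f651_co.IX.Core
import Pool.Agent.Lib.MP_56f651_co.IX.T

namespace Pool.Agent.Results.MP_56f651_co.OnePrime

open Pool.Agent.Lib.MP_56f651_co.IX in
/-- Cyclic Hadamard difference sets of order `v = p w`, `p > 3` prime, such that every unit
congruent to one modulo `w` is a multiplier up to sign. -/
theorem result :
    ∀ (v : ℕ) (D : Finset (ZMod v)),
      v % 4 = 3 →
      D.card = (v - 1) / 2 →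
      (∀ d : ZMod v, d ≠ 0 →
        ((D ×ˢ D).filter (fun q => q.1 - q.2 = d)).card = (v - 3) / 4) →
      ∀ p w : ℕ, p.Prime → 3 < p → v = p * w →
      (∀ t : ℕ, t.Coprime v → t ≡ 1 [MOD w] → ∃ b : ZMod v,
        D.image (fun x => (t : ZMod v) * x) = D.image (fun x => x + b) ∨
        D.image (fun x => -(t : ZMod v) * x) = D.image (fun x => x + b)) →
      ∃ a b : ZMod v, IsUnit a ∧
        ((v.Prime ∧ ∀ x : ZMod v, x ∈ D ↔ (a * x + b ≠ 0 ∧ IsSquare (a * x + b))) ∨
         (∃ q : ℕ, q.Prime ∧ (q + 2).Prime ∧ v = q * (q + 2) ∧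
           ∀ x : ZMod v, x ∈ D ↔
             (jacobiSym ((a * x + b).val : ℤ) q * jacobiSym ((a * x + b).val : ℤ) (q + 2) = 1 ∨
              (a * x + b).val % (q + 2) = 0))) :=
  one_of stReal (stT stCore)

end Pool.Agent.Results.MP_56f651_co.OnePrime
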