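import Pool.Agent.Lib.MP_56f651_co.SP.Sub
import Pool.Agent.Lib.MP_56f651_co.SP.Chain
import Pool.Agent.Lib.MP_56f651_co.SP.Dio
import Pool.Agent.Lib.MP_56f651_co.SP.Mult
import Pool.Agent.Lib.MP_56f651_co.SP.DS
import Pool.Agent.Lib.MP_56f651_co.SP.Final

namespace Pool.Agent.Results.MP_56f651_co.SmoothPart

open Pool.Agent.Lib.MP_56f651_co.SP in
/-- For every bound `y` there is `δ > 0` such that only finitely many orders `v` of cyclic
Hadamard difference sets have a `y`-smooth divisor of size at least `v ^ (1 - δ)`. -/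
theorem result :
    ∀ y : ℕ, ∃ δ : ℝ, 0 < δ ∧ {v : ℕ | v % 4 = 3 ∧
      (∃ D : Finset (ZMod v), D.card = (v - 1) / 2 ∧ ∀ d : ZMod v, d ≠ 0 →
        ((D ×ˢ D).filter (fun q => q.1 - q.2 = d)).card = (v - 3) / 4) ∧
      ∃ s : ℕ, s ∣ v ∧ (∀ p : ℕ, p.Prime → p ∣ s → p ≤ y) ∧ (v : ℝ) ^ (1 - δ) ≤ s}.Finite :=
  final (stDio stRoot (stRid stSub stExt) (stChain stExt (stSmall stSub))) (stDS stMult)

end Pool.Agent.Results.MP_56f651_co.SmoothPart
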